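import Pool.Agent.UCF.Main

/-!
Sizes of the denominators of the convergents of `coth (s/2)` (helper15, for helper99).
-/

namespace Pool.Agent.UCF

theorem quot_ge_real {s : ℕ} (hs : s = 1 ∨ s = 2) (n : ℕ) : (2 * n + 1 : ℝ) ≤ quot s n := by
  exact_mod_cast quot_ge hs n

theorem prod_pos' {s : ℕ} (hs : s = 1 ∨ s = 2) (n : ℕ) : 0 < ∏ k ∈ Finset.range n, (quot s (k + 1) : ℝ) := by
  apply Finset.prod_pos
  intro k _
  have := quot_ge hs (k + 1)
  have : 0 < quot s (k + 1) := by omega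
  exact_mod_cast this

theorem Q_le_aux {s : ℕ} (hs : s = 1 ∨ s = 2) (n : ℕ) :
    ((conv s (n + 1)).2 : ℝ) ≤ (2 - 1 / (2 * n + 1)) * ∏ k ∈ Finset.range n, (quot s (k + 1) : ℝ) := by
  induction n using Nat.twoStepInduction with
  | zero => norm_num [conv]
  | one =>
    have h := prod_pos' hs 1
    simp only [Finset.prod_range_one, zero_add] at h ⊢
    simp only [conv]
    push_cast
    nlinarith
  | more n ih0 ih1 =>
    have e : ((conv s (n + 2 + 1)).2 : ℝ) = quot s (n + 2) * (conv s (n + 1 + 1)).2 + (conv s (n + 1)).2 := by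
      show (((quot s (n + 1 + 1) * (conv s (n + 1 + 1)).2 + (conv s (n + 1)).2 : ℕ)) : ℝ) = _
      push_cast; rfl
    rw [e]
    rw [Finset.prod_range_succ, Finset.prod_range_succ] at *
    have hP := prod_pos' hs n
    set P := ∏ k ∈ Finset.range n, (quot s (k + 1) : ℝ) with hPdef
    have h1 := quot_ge_real hs (n + 1)
    have h2 := quot_ge_real hs (n + 1 + 1)
    set q1 : ℝ := (quot s (n + 1) : ℝ)
    set q2 : ℝ := (quot s (n + 1 + 1) : ℝ)
    push_cast at *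
    have hn : (0 : ℝ) ≤ n := Nat.cast_nonneg n
    have hq1 : (2 * (n : ℝ) + 3) ≤ q1 := by linarith
    have hq2 : (2 * (n : ℝ) + 5) ≤ q2 := by linarith
    have hqq : (2 * (n : ℝ) + 3) * (2 * n + 5) ≤ q1 * q2 := by
      apply mul_le_mul hq1 hq2 (by positivity) (by linarith)
    have a1 : q2 * ((conv s (n + 1 + 1)).2 : ℝ) ≤ q2 * ((2 - 1 / (2 * ((n : ℝ) + 1) + 1)) * (P * q1)) :=
      mul_le_mul_of_nonneg_left ih1 (by linarith)
    have a2 : ((conv s (n + 1)).2 : ℝ) ≤ 2 * P := by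
      refine ih0.trans ?_
      have : 0 ≤ 1 / (2 * (n : ℝ) + 1) := by positivity
      nlinarith
    have a3 : 2 * P ≤ 2 / ((2 * (n : ℝ) + 3) * (2 * n + 5)) * (P * q1 * q2) := by
      rw [div_mul_eq_mul_div, le_div_iff₀ (by positivity)]
      nlinarith [mul_le_mul_of_nonneg_left hqq hP.le]
    have a4 : 2 / ((2 * (n : ℝ) + 3) * (2 * n + 5)) = 1 / (2 * ((n : ℝ) + 1) + 1) - 1 / (2 * ((n : ℝ) + 2) + 1) := by
      field_simp
      ring
    calc q2 * ((conv s (n + 1 + 1)).2 : ℝ) + ((conv s (n + 1)).2 : ℝ)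
        ≤ q2 * ((2 - 1 / (2 * ((n : ℝ) + 1) + 1)) * (P * q1)) + 2 / ((2 * (n : ℝ) + 3) * (2 * n + 5)) * (P * q1 * q2) := by
          linarith
      _ = (2 - 1 / (2 * ((n : ℝ) + 2) + 1)) * (P * q1 * q2) := by
          rw [a4]; ring

theorem Q_le {s : ℕ} (hs : s = 1 ∨ s = 2) (n : ℕ) :
    ((conv s (n + 1)).2 : ℝ) ≤ 2 * ∏ k ∈ Finset.range n, (quot s (k + 1) : ℝ) := by
  refine (Q_le_aux hs n).trans ?_
  have h := prod_pos' hs n
  have : 0 ≤ 1 / (2 * (n : ℝ) + 1) := by positivity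
  nlinarith

theorem Q_ge' {s : ℕ} (_hs : s = 1 ∨ s = 2) (n : ℕ) :
    ∏ k ∈ Finset.range n, (quot s (k + 1) : ℝ) ≤ ((conv s (n + 1)).2 : ℝ) := by
  induction n with
  | zero => norm_num [conv]
  | succ n ih =>
    rw [Finset.prod_range_succ]
    have e : ((conv s (n + 1 + 1)).2 : ℝ) = quot s (n + 1) * (conv s (n + 1)).2 + (conv s n).2 := by
      show (((quot s (n + 1) * (conv s (n + 1)).2 + (conv s n).2 : ℕ)) : ℝ) = _
      push_cast; rfl
    rw [e]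
    have h0 : (0 : ℝ) ≤ ((conv s n).2 : ℝ) := Nat.cast_nonneg _
    have h1 : (0 : ℝ) ≤ (quot s (n + 1) : ℝ) := Nat.cast_nonneg _
    nlinarith [mul_le_mul_of_nonneg_right ih h1]

theorem quot_one (n : ℕ) : (quot 1 (n + 1) : ℝ) = 4 * n + 6 := by
  have : quot 1 (n + 1) = 4 * n + 6 := by unfold quot; omega
  rw [this]; push_cast; ring

theorem quot_two (n : ℕ) : (quot 2 (n + 1) : ℝ) = 2 * n + 3 := by
  have : quot 2 (n + 1) = 2 * n + 3 := by unfold quot; omega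
  rw [this]; push_cast; ring

theorem rho_aux (n : ℕ) : (2 + 1 / ((n : ℝ) + 1)) * (∏ k ∈ Finset.range n, (quot 1 (k + 1) : ℝ)) ^ 2 ≤
      ∏ k ∈ Finset.range (2 * n + 1), (quot 2 (k + 1) : ℝ) ∧
    ∏ k ∈ Finset.range (2 * n + 1), (quot 2 (k + 1) : ℝ) ≤ 3 * (∏ k ∈ Finset.range n, (quot 1 (k + 1) : ℝ)) ^ 2 := by
  induction n with
  | zero => norm_num [quot_two]
  | succ n ih =>
    obtain ⟨ih1, ih2⟩ := ih
    have e : 2 * (n + 1) + 1 = 2 * n + 1 + 1 + 1 := by ring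
    rw [e, Finset.prod_range_succ _ (2 * n + 1 + 1), Finset.prod_range_succ _ (2 * n + 1), Finset.prod_range_succ _ n]
    rw [quot_two, quot_two, quot_one]
    set A := ∏ k ∈ Finset.range n, (quot 1 (k + 1) : ℝ)
    set B := ∏ k ∈ Finset.range (2 * n + 1), (quot 2 (k + 1) : ℝ)
    push_cast
    have hn : (0 : ℝ) ≤ n := Nat.cast_nonneg n
    have hA : 0 ≤ A ^ 2 := sq_nonneg A
    constructor
    · have h1 : (2 + 1 / ((n : ℝ) + 1 + 1)) * (A * (4 * n + 6)) ^ 2 ≤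
          ((2 + 1 / ((n : ℝ) + 1)) * A ^ 2) * ((2 * (2 * n + 1) + 3) * (2 * (2 * n + 1 + 1) + 3)) := by
        have h2 : (2 + 1 / ((n : ℝ) + 1 + 1)) * (4 * n + 6) ^ 2 ≤
            (2 + 1 / ((n : ℝ) + 1)) * ((2 * (2 * n + 1) + 3) * (2 * (2 * n + 1 + 1) + 3)) := by
          have e1 : (2 + 1 / ((n : ℝ) + 1 + 1)) = (2 * n + 5) / (n + 2) := by field_simp; ring
          have e2 : (2 + 1 / ((n : ℝ) + 1)) = (2 * n + 3) / (n + 1) := by field_simp; ring
          rw [e1, e2, div_mul_eq_mul_div, div_mul_eq_mul_div, div_le_div_iff₀ (by positivity) (by positivity)]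
          ring_nf
          nlinarith [pow_nonneg hn 2, pow_nonneg hn 3, pow_nonneg hn 4]
        nlinarith [mul_le_mul_of_nonneg_left h2 hA]
      refine h1.trans ?_
      have : ((2 + 1 / ((n : ℝ) + 1)) * A ^ 2) * ((2 * (2 * n + 1) + 3) * (2 * (2 * n + 1 + 1) + 3)) ≤
          B * ((2 * (2 * n + 1) + 3) * (2 * (2 * n + 1 + 1) + 3)) :=
        mul_le_mul_of_nonneg_right ih1 (by positivity)
      linarith
    · have h3 : B * ((2 * (2 * n + 1) + 3) * (2 * (2 * n + 1 + 1) + 3)) ≤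
          3 * A ^ 2 * ((2 * (2 * n + 1) + 3) * (2 * (2 * n + 1 + 1) + 3)) :=
        mul_le_mul_of_nonneg_right ih2 (by positivity)
      nlinarith

theorem rho (n : ℕ) : 2 * (∏ k ∈ Finset.range n, (quot 1 (k + 1) : ℝ)) ^ 2 ≤
      ∏ k ∈ Finset.range (2 * n + 1), (quot 2 (k + 1) : ℝ) ∧
    ∏ k ∈ Finset.range (2 * n + 1), (quot 2 (k + 1) : ℝ) ≤ 3 * (∏ k ∈ Finset.range n, (quot 1 (k + 1) : ℝ)) ^ 2 := by
  refine ⟨le_trans ?_ (rho_aux n).1, (rho_aux n).2⟩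
  have h1 : 0 ≤ 1 / ((n : ℝ) + 1) := by positivity
  nlinarith [mul_nonneg h1 (sq_nonneg (∏ k ∈ Finset.range n, (quot 1 (k + 1) : ℝ)))]

end Pool.Agent.UCF
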